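import Mathlib
import Pool.Agent.PRF.TGap2

/-!
# MP_1b773e: the sizes of the two variables in a monochromatic pattern `a, b, ab, a ^ b, a ^ b * b`

For every `k` one finite colouring excludes all pairs `(a, b)` for which `a` is at most the `k`-fold iterated
exponential of `b`.
-/

namespace Pool.Agent.Results.MP_1b773e_co.TowerGap

/-- Iterated exponentials: `tower 0 n = n`, `tower (k + 1) n = 2 ^ tower k n`. -/
def tower : ℕ → ℕ → ℕ
  | 0, n => n
  | k + 1, n => 2 ^ tower k n

private theorem tower_eq (k n : ℕ) : tower k n = PRF.TGap.tower k n := by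
  induction k with
  | zero => rfl
  | succ k ih => rw [tower, PRF.TGap.tower, ih]

/-- For every `k` there is a finite colouring such that the `k`-fold iterated exponential of `b` is less than `a`
whenever `a, b > 1` and `a, b, ab, a^b, a^b b` have the same colour. -/
theorem result (k : ℕ) : ∃ (r : ℕ) (c : ℕ → Fin r), ∀ a b : ℕ, 1 < a → 1 < b →
    c a = c b → c a = c (a * b) → c a = c (a ^ b) → c a = c (a ^ b * b) → tower k b < a := by
  obtain ⟨r, c, hc⟩ := PRF.TGap.tower_all k
  refine ⟨r, c, ?_⟩
  intro a b ha hb h1 h2 h3 h4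
  rw [tower_eq]
  exact hc a b ha hb h1 h2 h3 h4

end Pool.Agent.Results.MP_1b773e_co.TowerGap
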